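import Mathlib

/-!
# Differences with bounded multiplicities: the set of the numbers `⌊5 i ^ (3/2)⌋`
-/

set_option autoImplicit false

namespace Pool.Agent.X319.DM

open Finset

lemma alg {u v w z : ℝ} (hz : 0 ≤ z) (hzw : z < w) (hzv : z < v) (hu : 0 < u)
    (h : u ^ 2 + z ^ 2 = v ^ 2 + w ^ 2) :
    (u ^ 2 - v ^ 2) * (u ^ 2 - w ^ 2) ≤ 4 * u * (u ^ 3 - w ^ 3 - v ^ 3 + z ^ 3) := by
  have hw : 0 < w := lt_of_le_of_lt hz hzw
  have hv : 0 < v := lt_of_le_of_lt hz hzv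
  have huw : w < u := by nlinarith
  have huv : v < u := by nlinarith
  set P := (u ^ 2 + u * v + v ^ 2) / (u + v) with hP
  set Q := (w ^ 2 + w * v + v ^ 2) / (w + v) with hQ
  set S := (w ^ 2 + w * z + z ^ 2) / (w + z) with hS
  have e1 : u ^ 3 - v ^ 3 = (u ^ 2 - v ^ 2) * P := by
    rw [hP]; field_simp; ring
  have e2 : w ^ 3 - z ^ 3 = (w ^ 2 - z ^ 2) * S := by
    have : w + z ≠ 0 := by positivity
    rw [hS]; field_simp; ring
  have hQS : S ≤ Q := by
    rw [hS, hQ, div_le_div_iff₀ (by positivity) (by positivity)]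
    have : 0 ≤ (v - z) * (w * (v + z) + v * z) :=
      mul_nonneg (by linarith) (by positivity)
    nlinarith
  have hPQ : (u - w) / 2 ≤ P - Q := by
    have e3 : P - Q = (u - w) * (u * w + u * v + v * w) / ((u + v) * (w + v)) := by
      rw [hP, hQ]; field_simp; ring
    rw [e3, div_le_div_iff₀ (by norm_num) (by positivity)]
    have h1 : (u + v) * (w + v) ≤ 2 * (u * w + u * v + v * w) := by nlinarith [mul_pos hv hw, mul_pos hu hw, mul_pos hv (sub_pos.2 huv)]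
    have h2 : 0 ≤ u - w := by linarith
    nlinarith [mul_le_mul_of_nonneg_left h1 h2]
  have hδ : 0 < u ^ 2 - v ^ 2 := by nlinarith
  have hδ' : w ^ 2 - z ^ 2 = u ^ 2 - v ^ 2 := by linarith
  have e4 : u ^ 3 - w ^ 3 - v ^ 3 + z ^ 3 = (u ^ 2 - v ^ 2) * (P - S) := by
    have : u ^ 3 - w ^ 3 - v ^ 3 + z ^ 3 = (u ^ 3 - v ^ 3) - (w ^ 3 - z ^ 3) := by ring
    rw [this, e1, e2, hδ']; ring
  rw [e4]
  have h5 : u ^ 2 - w ^ 2 ≤ 4 * u * (P - S) := by
    have h6 : (u - w) / 2 ≤ P - S := by linarith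
    calc u ^ 2 - w ^ 2 = (u - w) * (u + w) := by ring
      _ ≤ (u - w) * (2 * u) := mul_le_mul_of_nonneg_left (by linarith) (by linarith)
      _ = 4 * u * ((u - w) / 2) := by ring
      _ ≤ 4 * u * (P - S) := mul_le_mul_of_nonneg_left h6 (by positivity)
  calc (u ^ 2 - v ^ 2) * (u ^ 2 - w ^ 2) ≤ (u ^ 2 - v ^ 2) * (4 * u * (P - S)) :=
        mul_le_mul_of_nonneg_left h5 hδ.le
    _ = _ := by ring

/-- `5 i ^ (3/2)` -/
noncomputable def b (i : ℕ) : ℝ := 5 * (√(i : ℝ)) ^ 3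

lemma sq (i : ℕ) : (√(i : ℝ)) ^ 2 = i := Real.sq_sqrt (Nat.cast_nonneg i)

lemma b_diff (i h : ℕ) : 5 * h * √((i + h : ℕ) : ℝ) ≤ b (i + h) - b i := by
  have h1 : √(i : ℝ) ≤ √((i + h : ℕ) : ℝ) := Real.sqrt_le_sqrt (by push_cast; linarith [Nat.cast_nonneg (α := ℝ) h])
  have h2 := sq i
  have h3 := sq (i + h)
  have h0 : 0 ≤ √(i : ℝ) := Real.sqrt_nonneg _
  rw [b, b]
  set x := √(i : ℝ)
  set y := √((i + h : ℕ) : ℝ)
  have h4 : (h : ℝ) = y ^ 2 - x ^ 2 := by rw [h2, h3]; push_cast; ring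
  rw [h4]
  nlinarith [mul_nonneg (sq_nonneg x) (sub_nonneg.2 h1)]

lemma b_diff2 (i δ h : ℕ) (hδ : 1 ≤ δ) (hh : 1 ≤ h) :
    5 * (δ : ℝ) * h ≤ 4 * √((i + δ + h : ℕ) : ℝ) *
      ((b (i + δ + h) - b (i + δ)) - (b (i + h) - b i)) := by
  have hδR : (1 : ℝ) ≤ δ := by exact_mod_cast hδ
  have hhR : (1 : ℝ) ≤ h := by exact_mod_cast hh
  have s1 := sq i
  have s2 := sq (i + δ)
  have s3 := sq (i + h)
  have s4 := sq (i + δ + h)
  have p1 : 0 ≤ √(i : ℝ) := Real.sqrt_nonneg _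
  have l1 : √(i : ℝ) < √((i + δ : ℕ) : ℝ) :=
    Real.sqrt_lt_sqrt (Nat.cast_nonneg _) (by push_cast; linarith)
  have l2 : √(i : ℝ) < √((i + h : ℕ) : ℝ) :=
    Real.sqrt_lt_sqrt (Nat.cast_nonneg _) (by push_cast; linarith)
  have l3 : 0 < √((i + δ + h : ℕ) : ℝ) := by
    refine Real.sqrt_pos.2 ?_
    have : 0 < i + δ + h := by omega
    exact_mod_cast this
  simp only [b]
  have key := alg p1 l1 l2 l3 (by rw [s1, s2, s3, s4]; push_cast; ring)
  have e1 : (√((i + δ + h : ℕ) : ℝ)) ^ 2 - (√((i + h : ℕ) : ℝ)) ^ 2 = δ := by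
    rw [s4, s3]; push_cast; ring
  have e2 : (√((i + δ + h : ℕ) : ℝ)) ^ 2 - (√((i + δ : ℕ) : ℝ)) ^ 2 = h := by
    rw [s4, s2]; push_cast; ring
  rw [e1, e2] at key
  nlinarith

/-- `⌊5 i ^ (3/2)⌋` -/
noncomputable def a (i : ℕ) : ℕ := ⌊b i⌋₊

lemma b_nonneg (i : ℕ) : 0 ≤ b i := by unfold b; positivity

lemma a_le (i : ℕ) : (a i : ℝ) ≤ b i := Nat.floor_le (b_nonneg i)

lemma lt_a (i : ℕ) : b i < a i + 1 := Nat.lt_floor_add_one _

lemma a_strictMono : StrictMono a := by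
  refine strictMono_nat_of_lt_succ fun i => ?_
  have h1 := b_diff i 1
  have h2 := a_le i
  have h3 := lt_a (i + 1)
  have h4 : (1 : ℝ) ≤ √((i + 1 : ℕ) : ℝ) := by
    rw [Real.one_le_sqrt]; push_cast; linarith [Nat.cast_nonneg (α := ℝ) i]
  have h5 : (a i : ℝ) < a (i + 1) := by push_cast at h1; push_cast at h4; linarith
  exact_mod_cast h5

/-- indices with difference `s` -/
noncomputable def T (r s h : ℕ) : Finset ℕ := (Finset.Icc 1 r).filter (fun i => a (i + h) = a i + s)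

lemma mem_T {r s h i : ℕ} (hi : i ∈ T r s h) : (s : ℝ) - 1 < b (i + h) - b i ∧
    b (i + h) - b i < s + 1 := by
  have h0 := (Finset.mem_filter.1 hi).2
  have h0' : (a (i + h) : ℝ) = a i + s := by exact_mod_cast h0
  have h1 := a_le i
  have h2 := lt_a i
  have h3 := a_le (i + h)
  have h4 := lt_a (i + h)
  constructor <;> linarith

lemma T_h {r s h i : ℕ} (hi : i ∈ T r s h) : 5 * h ≤ s := by
  have h1 := (mem_T hi).2
  have h2 := b_diff i h
  have hi1 : 1 ≤ i := (Finset.mem_Icc.1 (Finset.mem_filter.1 hi).1).1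
  have h4 : (1 : ℝ) ≤ √((i + h : ℕ) : ℝ) := by
    rw [Real.one_le_sqrt]
    have : 1 ≤ i + h := by omega
    exact_mod_cast this
  have h5 : (5 * h : ℝ) * 1 ≤ 5 * h * √((i + h : ℕ) : ℝ) :=
    mul_le_mul_of_nonneg_left h4 (by positivity)
  have h6 : ((5 * h : ℕ) : ℝ) < ((s + 1 : ℕ) : ℝ) := by push_cast; linarith
  have h7 : 5 * h < s + 1 := by exact_mod_cast h6
  omega

lemma T_card (r s h : ℕ) (hh : 1 ≤ h) :
    ((T r s h).card : ℝ) ≤ 1 + 8 * (s + 1) / (25 * h ^ 2) := by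
  have hhR : (1 : ℝ) ≤ h := by exact_mod_cast hh
  rcases (T r s h).eq_empty_or_nonempty with h0 | h0
  · rw [h0]; simp; positivity
  · set i := (T r s h).min' h0 with hi
    set j := (T r s h).max' h0 with hj
    have hiT : i ∈ T r s h := Finset.min'_mem _ _
    have hjT : j ∈ T r s h := Finset.max'_mem _ _
    have hcard : (T r s h).card ≤ j - i + 1 := by
      have hsub : T r s h ⊆ Finset.Icc i j := fun x hx =>
        Finset.mem_Icc.2 ⟨Finset.min'_le _ _ hx, Finset.le_max' _ _ hx⟩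
      have := Finset.card_le_card hsub
      rw [Nat.card_Icc] at this
      omega
    have hij : i ≤ j := Finset.min'_le _ _ hjT
    rcases Nat.eq_or_lt_of_le hij with heq | hlt
    · have : (T r s h).card ≤ 1 := by omega
      have h1 : ((T r s h).card : ℝ) ≤ 1 := by exact_mod_cast this
      have h2 : (0 : ℝ) ≤ 8 * (s + 1) / (25 * h ^ 2) := by positivity
      linarith
    · obtain ⟨δ, hδ⟩ : ∃ δ, j = i + δ := ⟨j - i, by omega⟩
      have hδ1 : 1 ≤ δ := by omega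
      have k1 := b_diff2 i δ h hδ1 hh
      rw [← hδ] at k1
      obtain ⟨m1, m2⟩ := mem_T hiT
      obtain ⟨m3, m4⟩ := mem_T hjT
      have k2 := b_diff j h
      set u := √((j + h : ℕ) : ℝ) with hu
      have hu0 : 0 < u := by
        refine Real.sqrt_pos.2 ?_
        have : 0 < j + h := by omega
        exact_mod_cast this
      have k3 : 5 * (δ : ℝ) * h < 8 * u := by
        calc 5 * (δ : ℝ) * h ≤ 4 * u * ((b (j + h) - b j) - (b (i + h) - b i)) := k1
          _ < 4 * u * 2 := mul_lt_mul_of_pos_left (by linarith) (by positivity)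
          _ = 8 * u := by ring
      have k4 : 5 * h * u < s + 1 := lt_of_le_of_lt k2 m4
      have k5 : (δ : ℝ) * (25 * h ^ 2) ≤ 8 * (s + 1) := by
        have : 5 * (δ : ℝ) * h * (5 * h) ≤ 8 * u * (5 * h) :=
          mul_le_mul_of_nonneg_right k3.le (by positivity)
        nlinarith
      have k6 : (δ : ℝ) ≤ 8 * (s + 1) / (25 * h ^ 2) := by
        rw [le_div_iff₀ (by positivity)]; exact k5
      have k7 : (T r s h).card ≤ δ + 1 := by omega
      have k8 : ((T r s h).card : ℝ) ≤ δ + 1 := by exact_mod_cast k7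
      linarith

lemma inv_sq (H : ℕ) (hH : 1 ≤ H) : ∑ h ∈ Finset.Icc 1 H, (1 : ℝ) / h ^ 2 + 1 / H ≤ 2 := by
  induction H, hH using Nat.le_induction with
  | base => norm_num
  | succ H hH ih =>
    rw [Finset.sum_Icc_succ_top (by omega)]
    have h1 : (1 : ℝ) ≤ H := by exact_mod_cast hH
    have h2 : (1 : ℝ) / ((H + 1 : ℕ) : ℝ) ^ 2 + 1 / ((H + 1 : ℕ) : ℝ) ≤ 1 / H := by
      push_cast
      have e : (1 : ℝ) / (H + 1) ^ 2 + 1 / (H + 1) = (H + 2) / (H + 1) ^ 2 := by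
        field_simp; ring
      rw [e, div_le_div_iff₀ (by positivity) (by positivity)]
      nlinarith
    linarith

lemma inv_sq' (H : ℕ) : ∑ h ∈ Finset.Icc 1 H, (1 : ℝ) / h ^ 2 ≤ 2 := by
  rcases Nat.eq_zero_or_pos H with h0 | h0
  · subst h0; simp
  · have h1 := inv_sq H h0
    have h2 : (0 : ℝ) ≤ 1 / H := by positivity
    linarith

/-- `ν(s)`: the number of the pairs of elements of `A` with difference `s` -/
def nu (A : Finset ℕ) (s : ℕ) : ℕ := ((A ×ˢ A).filter (fun p => p.1 + s = p.2)).card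

/-- `A` is admissible: `ν(s) ≤ 2 s` for every `s ≥ 1` -/
def Admissible (A : Finset ℕ) : Prop := ∀ s : ℕ, 1 ≤ s → nu A s ≤ 2 * s

/-- `R(n)`: the largest size of an admissible subset of `{1, ..., n}` -/
noncomputable def R (n : ℕ) : ℕ :=
  sSup {r : ℕ | ∃ A : Finset ℕ, A ⊆ Finset.Icc 1 n ∧ A.card = r ∧ Admissible A}

theorem adm (r : ℕ) : Admissible ((Finset.Icc 1 r).image a) := by
  classical
  intro s hs
  have hsub : ((((Finset.Icc 1 r).image a) ×ˢ ((Finset.Icc 1 r).image a)).filter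
      (fun p : ℕ × ℕ => p.1 + s = p.2)) ⊆
      (Finset.Icc 1 (s / 5)).biUnion (fun h => (T r s h).image (fun i => (a i, a (i + h)))) := by
    intro p hp
    obtain ⟨h1, h2⟩ := Finset.mem_filter.1 hp
    obtain ⟨h3, h4⟩ := Finset.mem_product.1 h1
    obtain ⟨i, hi, hi'⟩ := Finset.mem_image.1 h3
    obtain ⟨j, hj, hj'⟩ := Finset.mem_image.1 h4
    rw [← hi', ← hj'] at h2
    have hij : i < j := a_strictMono.lt_iff_lt.1 (by omega)
    have hiT : i ∈ T r s (j - i) := by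
      refine Finset.mem_filter.2 ⟨hi, ?_⟩
      rw [Nat.add_sub_cancel' hij.le]; exact h2.symm
    have h5 := T_h hiT
    rw [Finset.mem_biUnion]
    refine ⟨j - i, Finset.mem_Icc.2 ⟨by omega, by omega⟩, Finset.mem_image.2 ⟨i, hiT, ?_⟩⟩
    rw [Nat.add_sub_cancel' hij.le, hi', hj']
  have hcard : nu ((Finset.Icc 1 r).image a) s ≤ ∑ h ∈ Finset.Icc 1 (s / 5), (T r s h).card := by
    calc nu ((Finset.Icc 1 r).image a) s ≤ _ := Finset.card_le_card hsub
      _ ≤ _ := Finset.card_biUnion_le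
      _ ≤ _ := Finset.sum_le_sum fun h _ => Finset.card_image_le
  have hcardR : (nu ((Finset.Icc 1 r).image a) s : ℝ) ≤
      ∑ h ∈ Finset.Icc 1 (s / 5), (1 + 8 * ((s : ℝ) + 1) / (25 * h ^ 2)) := by
    calc (nu ((Finset.Icc 1 r).image a) s : ℝ)
        ≤ ((∑ h ∈ Finset.Icc 1 (s / 5), (T r s h).card : ℕ) : ℝ) := by exact_mod_cast hcard
      _ = ∑ h ∈ Finset.Icc 1 (s / 5), ((T r s h).card : ℝ) := by push_cast; rfl
      _ ≤ _ := Finset.sum_le_sum fun h hh => T_card r s h (Finset.mem_Icc.1 hh).1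
  have hsum : ∑ h ∈ Finset.Icc 1 (s / 5), (1 + 8 * ((s : ℝ) + 1) / (25 * h ^ 2)) =
      ((s / 5 : ℕ) : ℝ) + 8 * ((s : ℝ) + 1) / 25 * ∑ h ∈ Finset.Icc 1 (s / 5), (1 : ℝ) / h ^ 2 := by
    rw [Finset.sum_add_distrib, Finset.mul_sum]
    congr 1
    · simp
    · refine Finset.sum_congr rfl fun h hh => ?_
      have : (h : ℝ) ≠ 0 := by
        have := (Finset.mem_Icc.1 hh).1
        positivity
      field_simp
  have h5 : ((s / 5 : ℕ) : ℝ) ≤ (s : ℝ) / 5 := by
    have := Nat.cast_div_le (α := ℝ) (m := s) (n := 5)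
    simpa using this
  have hsR : (1 : ℝ) ≤ s := by exact_mod_cast hs
  have h6 : 8 * ((s : ℝ) + 1) / 25 * ∑ h ∈ Finset.Icc 1 (s / 5), (1 : ℝ) / h ^ 2 ≤
      8 * ((s : ℝ) + 1) / 25 * 2 := mul_le_mul_of_nonneg_left (inv_sq' _) (by positivity)
  have h7 : (nu ((Finset.Icc 1 r).image a) s : ℝ) ≤ ((2 * s : ℕ) : ℝ) := by
    push_cast
    rw [hsum] at hcardR
    linarith
  exact_mod_cast h7

lemma le_R {n : ℕ} {A : Finset ℕ} (hA : A ⊆ Finset.Icc 1 n) (hadm : Admissible A) :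
    A.card ≤ R n := by
  refine le_csSup ⟨n, ?_⟩ ⟨A, hA, rfl, hadm⟩
  rintro r ⟨B, hB, rfl, _⟩
  have := Finset.card_le_card hB
  rwa [Nat.card_Icc, Nat.add_sub_cancel] at this

theorem lower (n : ℕ) (hn : 1 ≤ n) : (n : ℝ) ^ (2 / 3 : ℝ) / 6 ≤ R n := by
  have hnR : (1 : ℝ) ≤ n := by exact_mod_cast hn
  have hn0 : (0 : ℝ) < n := by linarith
  -- at least one element
  have hone : 1 ≤ R n := by
    have h1 : Admissible ({1} : Finset ℕ) := by
      intro s hs
      have : nu {1} s = 0 := by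
        rw [nu, Finset.card_eq_zero, Finset.filter_eq_empty_iff]
        rintro ⟨x, y⟩ hp
        simp only [Finset.mem_product, Finset.mem_singleton] at hp
        simp only
        omega
      omega
    have := le_R (n := n) (A := {1}) (by simpa using hn) h1
    simpa using this
  set x : ℝ := ((n : ℝ) / 5) ^ (2 / 3 : ℝ) with hx
  have hx0 : 0 ≤ x := by positivity
  set r : ℕ := ⌊x⌋₊ with hr
  have hrx : (r : ℝ) ≤ x := Nat.floor_le hx0
  have hxr : x < r + 1 := Nat.lt_floor_add_one x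
  have hsq : √x = ((n : ℝ) / 5) ^ (1 / 3 : ℝ) := by
    rw [Real.sqrt_eq_rpow, hx, ← Real.rpow_mul (by positivity)]
    norm_num
  have hcube : (√x) ^ 3 = (n : ℝ) / 5 := by
    rw [hsq, ← Real.rpow_natCast, ← Real.rpow_mul (by positivity)]
    norm_num
  have hbr : b r ≤ n := by
    have h1 : √(r : ℝ) ≤ √x := Real.sqrt_le_sqrt hrx
    have h2 : (√(r : ℝ)) ^ 3 ≤ (√x) ^ 3 := pow_le_pow_left₀ (Real.sqrt_nonneg _) h1 3
    rw [hcube] at h2
    unfold b
    linarith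
  have hrR : r ≤ R n := by
    have hsub : (Finset.Icc 1 r).image a ⊆ Finset.Icc 1 n := by
      intro y hy
      obtain ⟨i, hi, rfl⟩ := Finset.mem_image.1 hy
      obtain ⟨h1, h2⟩ := Finset.mem_Icc.1 hi
      rw [Finset.mem_Icc]
      refine ⟨h1.trans (a_strictMono.le_apply), ?_⟩
      have h3 : a i ≤ a r := a_strictMono.monotone h2
      have h4 : (a r : ℝ) ≤ n := (a_le r).trans hbr
      exact h3.trans (by exact_mod_cast h4)
    have := le_R hsub (adm r)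
    rwa [Finset.card_image_of_injective _ a_strictMono.injective, Nat.card_Icc,
      Nat.add_sub_cancel] at this
  have h3 : (n : ℝ) ^ (2 / 3 : ℝ) ≤ 3 * x := by
    have e1 : x = (n : ℝ) ^ (2 / 3 : ℝ) * ((1 : ℝ) / 5) ^ (2 / 3 : ℝ) := by
      rw [hx, ← Real.mul_rpow hn0.le (by norm_num)]
      congr 1; ring
    have e2 : (1 : ℝ) / 3 ≤ ((1 : ℝ) / 5) ^ (2 / 3 : ℝ) := by
      have e3 : ((1 : ℝ) / 3) = (((1 : ℝ) / 3) ^ (3 / 2 : ℝ)) ^ (2 / 3 : ℝ) := by
        rw [← Real.rpow_mul (by norm_num)]; norm_num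
      rw [e3]
      refine Real.rpow_le_rpow (by positivity) ?_ (by norm_num)
      have e4 : ((1 : ℝ) / 3) ^ (3 / 2 : ℝ) = √((1 / 27 : ℝ)) := by
        rw [Real.sqrt_eq_rpow, show (1 / 27 : ℝ) = (1 / 3 : ℝ) ^ (3 : ℝ) by norm_num,
          ← Real.rpow_mul (by norm_num)]
        norm_num
      rw [e4, Real.sqrt_le_left (by norm_num)]
      norm_num
    have e5 : 0 ≤ (n : ℝ) ^ (2 / 3 : ℝ) := by positivity
    rw [e1]
    nlinarith
  have h4 : (r : ℝ) ≤ R n := by exact_mod_cast hrR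
  have h5 : (1 : ℝ) ≤ R n := by exact_mod_cast hone
  linarith

end Pool.Agent.X319.DM
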