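import Pool.Agent.X319.DM.Main

/-!
# The upper bound for `R(n)`
-/

set_option autoImplicit false

namespace Pool.Agent.X319.DM

open Finset

lemma upper_aux {n L : ℕ} (hL : 1 ≤ L) {A : Finset ℕ} (hA : A ⊆ Finset.Icc 1 n)
    (hadm : Admissible A) : A.card ≤ n / L + 1 + L ^ 2 := by
  classical
  set O := A.filter (fun x => ∃ y ∈ A, y < x ∧ y / L = x / L) with hO
  set Mn := A.filter (fun x => ¬ ∃ y ∈ A, y < x ∧ y / L = x / L) with hMn
  have hsplit : O.card + Mn.card = A.card := Finset.card_filter_add_card_filter_not _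
  have h1 : Mn.card ≤ n / L + 1 := by
    have hinj : Set.InjOn (fun x : ℕ => x / L) (Mn : Set ℕ) := by
      intro x hx y hy hxy
      have hx' := Finset.mem_filter.1 (Finset.mem_coe.1 hx)
      have hy' := Finset.mem_filter.1 (Finset.mem_coe.1 hy)
      simp only at hxy
      rcases lt_trichotomy x y with h | h | h
      · exact absurd ⟨x, hx'.1, h, hxy⟩ hy'.2
      · exact h
      · exact absurd ⟨y, hy'.1, h, hxy.symm⟩ hx'.2
    have hmaps : Set.MapsTo (fun x : ℕ => x / L) (Mn : Set ℕ) (Finset.range (n / L + 1) : Set ℕ) := by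
      intro x hx
      have hx' := (Finset.mem_filter.1 (Finset.mem_coe.1 hx)).1
      have := (Finset.mem_Icc.1 (hA hx')).2
      rw [Finset.mem_coe, Finset.mem_range]
      exact Nat.lt_succ_of_le (Nat.div_le_div_right this)
    have := Finset.card_le_card_of_injOn _ hmaps hinj
    rwa [Finset.card_range] at this
  have h2 : O.card ≤ L ^ 2 := by
    have hch : ∀ x : ℕ, ∃ y : ℕ, x ∈ O → y ∈ A ∧ y < x ∧ y / L = x / L := by
      intro x
      by_cases hx : x ∈ O
      · obtain ⟨y, hy⟩ := (Finset.mem_filter.1 hx).2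
        exact ⟨y, fun _ => hy⟩
      · exact ⟨0, fun h => absurd h hx⟩
    choose y hy using hch
    have hmaps : Set.MapsTo (fun x : ℕ => (y x, x)) (O : Set ℕ)
        ((Finset.range L).biUnion (fun s => (A ×ˢ A).filter
          (fun p : ℕ × ℕ => 1 ≤ s ∧ p.1 + s = p.2)) : Set (ℕ × ℕ)) := by
      intro x hx
      have hx0 := Finset.mem_coe.1 hx
      obtain ⟨h3, h4, h5⟩ := hy x hx0
      have hxA := (Finset.mem_filter.1 hx0).1
      rw [Finset.mem_coe, Finset.mem_biUnion]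
      refine ⟨x - y x, ?_, ?_⟩
      · rw [Finset.mem_range]
        have e1 := Nat.div_add_mod x L
        have e2 := Nat.div_add_mod (y x) L
        have e3 := Nat.mod_lt x hL
        rw [h5] at e2
        omega
      · rw [Finset.mem_filter, Finset.mem_product]
        exact ⟨⟨h3, hxA⟩, by omega, by show y x + (x - y x) = x; omega⟩
    have hinj : Set.InjOn (fun x : ℕ => (y x, x)) (O : Set ℕ) := by
      intro x _ x' _ h
      exact (Prod.ext_iff.1 h).2
    have h6 := Finset.card_le_card_of_injOn _ hmaps hinj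
    refine h6.trans (Finset.card_biUnion_le.trans ?_)
    have h7 : ∀ s ∈ Finset.range L, ((A ×ˢ A).filter
          (fun p : ℕ × ℕ => 1 ≤ s ∧ p.1 + s = p.2)).card ≤ 2 * s := by
      intro s _
      rcases Nat.eq_zero_or_pos s with h0 | h0
      · subst h0; simp
      · refine le_trans (Finset.card_le_card ?_) (hadm s h0)
        intro p hp
        rw [Finset.mem_filter] at hp ⊢
        exact ⟨hp.1, hp.2.2⟩
    refine (Finset.sum_le_sum h7).trans ?_
    rw [← Finset.mul_sum]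
    have h8 := Finset.sum_range_id_mul_two L
    have h9 : L * (L - 1) ≤ L ^ 2 := by
      rw [pow_two]; exact Nat.mul_le_mul_left _ (Nat.sub_le _ _)
    omega
  omega

theorem upper (n : ℕ) (hn : 1 ≤ n) : (R n : ℝ) ≤ 6 * (n : ℝ) ^ (2 / 3 : ℝ) := by
  have hnR : (1 : ℝ) ≤ n := by exact_mod_cast hn
  have hn0 : (0 : ℝ) < n := by linarith
  set x : ℝ := (n : ℝ) ^ (1 / 3 : ℝ) with hx
  have hx1 : 1 ≤ x := Real.one_le_rpow hnR (by norm_num)
  have hx0 : 0 < x := by linarith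
  have hx3 : x ^ 3 = n := by
    rw [hx, ← Real.rpow_natCast, ← Real.rpow_mul hn0.le]; norm_num
  have hx2 : x ^ 2 = (n : ℝ) ^ (2 / 3 : ℝ) := by
    rw [hx, ← Real.rpow_natCast, ← Real.rpow_mul hn0.le]; norm_num
  obtain ⟨L, hL1, hL2⟩ : ∃ L : ℕ, x ≤ L ∧ (L : ℝ) ≤ 2 * x := by
    refine ⟨⌈x⌉₊, Nat.le_ceil x, ?_⟩
    have := (Nat.ceil_lt_add_one hx0.le).le
    linarith
  have hL : 1 ≤ L := by
    have : (1 : ℝ) ≤ L := hx1.trans hL1
    exact_mod_cast this
  have hb : ∀ A : Finset ℕ, A ⊆ Finset.Icc 1 n → Admissible A →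
      (A.card : ℝ) ≤ 6 * (n : ℝ) ^ (2 / 3 : ℝ) := by
    intro A hA hadm
    have h1 := upper_aux hL hA hadm
    have h2 : (A.card : ℝ) ≤ ((n / L : ℕ) : ℝ) + 1 + (L : ℝ) ^ 2 := by exact_mod_cast h1
    have h3 : ((n / L : ℕ) : ℝ) ≤ (n : ℝ) / L := Nat.cast_div_le
    have h4 : (n : ℝ) / L ≤ x ^ 2 := by
      rw [div_le_iff₀ (by linarith), ← hx3]
      nlinarith [sq_nonneg x]
    have h5 : (L : ℝ) ^ 2 ≤ 4 * x ^ 2 := by nlinarith
    rw [← hx2]
    nlinarith
  obtain ⟨A, hA, hc, hadm⟩ : R n ∈ {r : ℕ | ∃ A : Finset ℕ, A ⊆ Finset.Icc 1 n ∧ A.card = r ∧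
      Admissible A} := by
    refine Nat.sSup_mem ⟨0, ∅, by simp, rfl, ?_⟩ ⟨n, ?_⟩
    · intro s _; simp [nu]
    · rintro r ⟨B, hB, rfl, _⟩
      have := Finset.card_le_card hB
      rwa [Nat.card_Icc, Nat.add_sub_cancel] at this
  rw [← hc]
  exact hb A hA hadm

end Pool.Agent.X319.DM
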